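import Mathlib

/-!
Determinants depend Lipschitz continuously on bounded entries, and a positive matrix with
bounded eigenvalues and large determinant is bounded below.
-/

namespace Pool.Agent.SYC

open Matrix
open scoped ComplexOrder

theorem norm_prod_sub_prod_le' {ι : Type*} (s : Finset ι) (a b : ι → ℂ) (M δ : ℝ) (hM : 0 ≤ M)
    (ha : ∀ i ∈ s, ‖a i‖ ≤ M) (hb : ∀ i ∈ s, ‖b i‖ ≤ M) (hδ : ∀ i ∈ s, ‖a i - b i‖ ≤ δ) :
    ‖∏ i ∈ s, a i - ∏ i ∈ s, b i‖ ≤ s.card * M ^ (s.card - 1) * δ := by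
  classical
  induction s using Finset.induction_on with
  | empty => simp
  | insert j s hj ih =>
    have ih' := ih (fun i hi => ha i (Finset.mem_insert_of_mem hi))
      (fun i hi => hb i (Finset.mem_insert_of_mem hi))
      (fun i hi => hδ i (Finset.mem_insert_of_mem hi))
    rw [Finset.prod_insert hj, Finset.prod_insert hj, Finset.card_insert_of_notMem hj]
    have hδ0 : 0 ≤ δ := (norm_nonneg _).trans (hδ j (Finset.mem_insert_self j s))
    have h1 : a j * ∏ i ∈ s, a i - b j * ∏ i ∈ s, b i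
        = a j * (∏ i ∈ s, a i - ∏ i ∈ s, b i) + (a j - b j) * ∏ i ∈ s, b i := by ring
    rw [h1]
    have h2 : ‖∏ i ∈ s, b i‖ ≤ M ^ s.card := by
      rw [norm_prod, ← Finset.prod_const]
      exact Finset.prod_le_prod (fun i _ => norm_nonneg _)
        (fun i hi => hb i (Finset.mem_insert_of_mem hi))
    calc ‖a j * (∏ i ∈ s, a i - ∏ i ∈ s, b i) + (a j - b j) * ∏ i ∈ s, b i‖
        ≤ ‖a j‖ * ‖∏ i ∈ s, a i - ∏ i ∈ s, b i‖ + ‖a j - b j‖ * ‖∏ i ∈ s, b i‖ := by
          refine (norm_add_le _ _).trans ?_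
          rw [norm_mul, norm_mul]
      _ ≤ M * (s.card * M ^ (s.card - 1) * δ) + δ * M ^ s.card := by
          gcongr
          · exact ha j (Finset.mem_insert_self j s)
          · exact hδ j (Finset.mem_insert_self j s)
      _ ≤ (s.card + 1 : ℕ) * M ^ (s.card + 1 - 1) * δ := by
          rcases Nat.eq_zero_or_pos s.card with h0 | h0
          · simp [h0]
          · obtain ⟨k, hk⟩ := Nat.exists_eq_succ_of_ne_zero h0.ne'
            rw [hk]
            simp only [Nat.succ_eq_add_one, Nat.add_sub_cancel, Nat.cast_add, Nat.cast_one]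
            rw [pow_succ]
            nlinarith

/-- Lipschitz dependence of the determinant on its entries. -/
theorem norm_det_sub_det_le {m : ℕ} (A B : Matrix (Fin m) (Fin m) ℂ) (M δ : ℝ) (hM : 0 ≤ M)
    (hA : ∀ i j, ‖A i j‖ ≤ M) (hB : ∀ i j, ‖B i j‖ ≤ M) (hδ : ∀ i j, ‖A i j - B i j‖ ≤ δ) :
    ‖A.det - B.det‖ ≤ (m.factorial * m * M ^ (m - 1)) * δ := by
  rw [Matrix.det_apply, Matrix.det_apply, ← Finset.sum_sub_distrib]
  calc ‖∑ σ : Equiv.Perm (Fin m), (Equiv.Perm.sign σ • ∏ i, A (σ i) i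
          - Equiv.Perm.sign σ • ∏ i, B (σ i) i)‖
      ≤ ∑ σ : Equiv.Perm (Fin m), ‖Equiv.Perm.sign σ • ∏ i, A (σ i) i
          - Equiv.Perm.sign σ • ∏ i, B (σ i) i‖ := norm_sum_le _ _
    _ ≤ ∑ _σ : Equiv.Perm (Fin m), (m * M ^ (m - 1)) * δ := by
        refine Finset.sum_le_sum fun σ _ => ?_
        rw [← smul_sub]
        have h1 : ‖Equiv.Perm.sign σ • (∏ i, A (σ i) i - ∏ i, B (σ i) i)‖
            = ‖∏ i, A (σ i) i - ∏ i, B (σ i) i‖ := by
          rcases Int.units_eq_one_or (Equiv.Perm.sign σ) with h | h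
          · rw [h, one_smul]
          · rw [h, Units.neg_smul, one_smul, norm_neg]
        rw [h1]
        have := norm_prod_sub_prod_le' (Finset.univ : Finset (Fin m)) (fun i => A (σ i) i)
          (fun i => B (σ i) i) M δ hM (fun i _ => hA _ _) (fun i _ => hB _ _) (fun i _ => hδ _ _)
        simpa using this
    _ = (m.factorial * m * M ^ (m - 1)) * δ := by
        rw [Finset.sum_const, Finset.card_univ, Fintype.card_perm, Fintype.card_fin, nsmul_eq_mul]
        ring

/-- A positive semidefinite matrix with eigenvalues at most `C` and determinant at least `c`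
has eigenvalues at least `c / C ^ (m - 1)`. -/
theorem eigenvalues_ge {m : ℕ} (H : Matrix (Fin m) (Fin m) ℂ) (hH : H.PosSemidef) (C c : ℝ)
    (hC : ∀ i, hH.1.eigenvalues i ≤ C) (hc : 0 < c) (hdet : c ≤ H.det.re) (i : Fin m) :
    c / C ^ (m - 1) ≤ hH.1.eigenvalues i := by
  classical
  have h0 : ∀ j, 0 ≤ hH.1.eigenvalues j := fun j => hH.eigenvalues_nonneg j
  have hd : H.det.re = ∏ j, hH.1.eigenvalues j := by
    rw [hH.1.det_eq_prod_eigenvalues]
    norm_cast
  rw [hd, ← Finset.mul_prod_erase Finset.univ _ (Finset.mem_univ i)] at hdet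
  have h1 : ∏ j ∈ Finset.univ.erase i, hH.1.eigenvalues j ≤ C ^ (m - 1) := by
    have : (Finset.univ.erase i).card = m - 1 := by
      rw [Finset.card_erase_of_mem (Finset.mem_univ i), Finset.card_univ, Fintype.card_fin]
    rw [← this, ← Finset.prod_const]
    exact Finset.prod_le_prod (fun j _ => h0 j) (fun j _ => hC j)
  have hC0 : 0 ≤ C := (h0 i).trans (hC i)
  have h2 : hH.1.eigenvalues i * ∏ j ∈ Finset.univ.erase i, hH.1.eigenvalues j
      ≤ hH.1.eigenvalues i * C ^ (m - 1) := mul_le_mul_of_nonneg_left h1 (h0 i)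
  rcases eq_or_lt_of_le (pow_nonneg hC0 (m - 1)) with h3 | h3
  · rw [← h3] at h2
    linarith
  · rw [div_le_iff₀ h3]
    linarith

end Pool.Agent.SYC
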